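import Pool.Agent.V11166.VolB

/-!
# Partitioning families with large `2d`-wise intersection volume
-/

open Set MeasureTheory Matrix Pool.Agent.V11166.Vol
open scoped Pointwise

namespace Pool.Agent.Results.MP_05b917_co.BoundedPartition

/-- From `2d` members to at most `2d` members. -/
lemma few_members {d : ℕ} (hd : 0 < d) {ι : Type} [Fintype ι] (K : ι → Set (Fin d → ℝ))
    (h : ∀ f : Fin (2 * d) → ι, (Function.Injective f ∨ Fintype.card ι < 2 * d) →
      1 ≤ volume (⋂ t, K (f t)))
    (J : Finset ι) (hJ : J.card ≤ 2 * d) : 1 ≤ volume {x | ∀ i ∈ J, x ∈ K i} := by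
  classical
  rcases lt_or_ge (Fintype.card ι) (2 * d) with hlt | hge
  · rcases isEmpty_or_nonempty ι with he | hne
    · have : J = ∅ := by
        ext i; exact he.elim i
      rw [this]
      simp only [Finset.notMem_empty, false_imp_iff, implies_true]
      have h0 : Nonempty (Fin d) := ⟨⟨0, hd⟩⟩
      have : volume {x : Fin d → ℝ | True} = ⊤ := by
        rw [show {x : Fin d → ℝ | True} = univ from rfl]
        simp
      rw [this]
      exact le_top
    · obtain ⟨i0⟩ := hne
      let f : Fin (2 * d) → ι := fun t =>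
        if ht : t.val < Fintype.card ι then (Fintype.equivFin ι).symm ⟨t.val, ht⟩ else i0
      refine (h f (Or.inr hlt)).trans (measure_mono ?_)
      intro x hx i _
      have hi : ((Fintype.equivFin ι) i).val < 2 * d := ((Fintype.equivFin ι) i).2.trans hlt
      have := mem_iInter.1 hx ⟨((Fintype.equivFin ι) i).val, hi⟩
      have hf : f ⟨((Fintype.equivFin ι) i).val, hi⟩ = i := by
        simp [f]
      rwa [hf] at this
  · obtain ⟨J', hJJ', hJ'⟩ := Finset.exists_superset_card_eq hJ hge
    let e : Fin (2 * d) ≃ J' := (Finset.equivFinOfCardEq hJ').symm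
    refine (h (fun t => (e t : ι)) (Or.inl fun a b hab => e.injective (Subtype.ext hab))).trans
      (measure_mono ?_)
    intro x hx i hi
    have := mem_iInter.1 hx (e.symm ⟨i, hJJ' hi⟩)
    simpa using this

/-- A convex set of positive volume has nonempty interior. -/
lemma interior_nonempty {d : ℕ} {C : Set (Fin d → ℝ)} (hC : Convex ℝ C) (h : 1 ≤ volume C) :
    (interior C).Nonempty := by
  by_contra hcon
  rw [not_nonempty_iff_eq_empty] at hcon
  have h1 : C ⊆ frontier C := by
    intro x hx
    rw [frontier, hcon]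
    exact ⟨subset_closure hx, fun h => h⟩
  have h2 : volume C = 0 := measure_mono_null h1 (hC.addHaar_frontier volume)
  rw [h2] at h
  simp at h

/-- **Main result.** For all `d ≥ 1` and `δ > 0` there is `r` such that every finite family of
convex sets in `ℝ^d` in which any `2d` members have an intersection of volume at least `1` can be
partitioned into `r` classes each of which has an intersection of volume at least `1 - δ`. -/
theorem result : ∀ d : ℕ, 1 ≤ d → ∀ δ : ℝ, 0 < δ → ∃ r : ℕ,
    ∀ (ι : Type) [Fintype ι] (K : ι → Set (Fin d → ℝ)), (∀ i, Convex ℝ (K i)) →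
      (∀ f : Fin (2 * d) → ι, (Function.Injective f ∨ Fintype.card ι < 2 * d) →
        1 ≤ volume (⋂ t, K (f t))) →
      ∃ c : ι → Fin r, ∀ j : Fin r,
        ENNReal.ofReal (1 - δ) ≤ volume (⋂ i ∈ {i | c i = j}, K i) := by
  classical
  intro d hd δ hδ
  have hd' : (1 : ℝ) ≤ d := by exact_mod_cast hd
  -- constants
  set Rb : ℝ := (d : ℝ) ^ 2 + d with hRb
  have hRb0 : 0 < Rb := by positivity
  set V0 : ENNReal := ENNReal.ofReal ((2 * Rb) ^ d) with hV0
  set s0 : ℝ := 1 / (2 * d) with hs0
  have hs0pos : 0 < s0 := by positivity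
  have hbv : volume (Metric.ball (0 : Fin d → ℝ) (s0 / 2)) ≠ 0 :=
    (Metric.measure_ball_pos volume _ (by positivity)).ne'
  obtain ⟨N0, hN0⟩ := ENNReal.exists_nat_mul_gt hbv (ENNReal.ofReal_ne_top (r := (2 * Rb) ^ d))
  set N : ℕ := N0 + 1 with hN
  have hNV : V0 ≤ (N : ENNReal) * volume (Metric.ball (0 : Fin d → ℝ) (s0 / 2)) := by
    refine hN0.le.trans ?_
    gcongr
    rw [hN]; exact_mod_cast Nat.le_succ N0
  set R' : ℝ := 2 * N * s0 with hR'
  have hN1 : (1 : ℝ) ≤ N := by rw [hN]; push_cast; linarith [(Nat.cast_nonneg N0 : (0 : ℝ) ≤ N0)]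
  have hR's0 : s0 ≤ R' := by rw [hR']; nlinarith
  have hR'pos : 0 < R' := by linarith
  set ε : ℝ := min δ (1 / 2) / d with hε
  have hε0 : 0 < ε := by
    rw [hε]; have : 0 < min δ (1 / 2) := lt_min hδ (by norm_num)
    positivity
  have hdε : d * ε ≤ δ := by
    rw [hε, mul_div_cancel₀ _ (by linarith)]
    exact min_le_left _ _
  have hε1 : ε < 1 := by
    rw [hε, div_lt_one (by linarith)]
    have : min δ (1 / 2) ≤ 1 / 2 := min_le_right _ _
    linarith
  have hpow : 1 - δ ≤ (1 - ε) ^ d := by
    have := one_add_mul_le_pow (a := -ε) (by linarith) d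
    have e : (1 : ℝ) + -ε = 1 - ε := by ring
    rw [e] at this
    linarith
  obtain ⟨r, hr, hcol⟩ := exists_colouring d hs0pos hε0 hε1 hR's0
  refine ⟨r, ?_⟩
  intro ι _ K hK hyp
  have hfew := few_members hd K hyp
  by_cases hbig : 1 ≤ volume (⋂ i, K i)
  · refine ⟨fun _ => ⟨0, hr⟩, fun j => ?_⟩
    have h1 : ENNReal.ofReal (1 - δ) ≤ 1 := by
      rw [← ENNReal.ofReal_one]
      exact ENNReal.ofReal_le_ofReal (by linarith)
    refine h1.trans (hbig.trans (measure_mono ?_))
    intro x hx
    simp only [mem_iInter] at hx ⊢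
    intro i _
    exact hx i
  push Not at hbig
  -- the whole intersection has interior points
  have hint : (⋂ i, interior (K i)).Nonempty := by
    have := Convex.helly_theorem' (𝕜 := ℝ) (F := fun i => interior (K i)) (s := Finset.univ)
      (fun i _ => (hK i).interior) (by
        intro I _ hI
        rw [Module.finrank_fin_fun] at hI
        have h1 := hfew I (by omega)
        have h2 : Convex ℝ {x | ∀ i ∈ I, x ∈ K i} := by
          have : {x | ∀ i ∈ I, x ∈ K i} = ⋂ i ∈ I, K i := by ext x; simp
          rw [this]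
          exact convex_iInter₂ fun i _ => hK i
        refine (interior_nonempty h2 h1).mono ?_
        intro x hx
        simp only [mem_iInter]
        intro i hi
        exact interior_mono (show {x | ∀ i ∈ I, x ∈ K i} ⊆ K i from fun y hy => hy i hi) hx)
    simpa using this
  obtain ⟨p, hp⟩ := hint
  have hopen : IsOpen (⋂ i, interior (K i)) := isOpen_iInter_of_finite fun i => isOpen_interior
  obtain ⟨ρ, hρ, hball⟩ : ∃ ρ > 0, Metric.closedBall p ρ ⊆ ⋂ i, interior (K i) := by
    obtain ⟨e, he, hsub⟩ := Metric.isOpen_iff.1 hopen p hp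
    exact ⟨e / 2, by positivity, (Metric.closedBall_subset_ball (by linarith)).trans hsub⟩
  have hball' : ∀ i, Metric.closedBall p ρ ⊆ K i := fun i =>
    (hball.trans (iInter_subset _ i)).trans interior_subset
  obtain ⟨R, hR⟩ := bounded_of_finite (convex_iInter hK) hρ (subset_iInter hball')
    (hbig.trans_le le_top).ne
  have hne : Nonempty ι := by
    by_contra hcon
    rw [not_nonempty_iff] at hcon
    rw [iInter_of_empty] at hbig
    have h0 : Nonempty (Fin d) := ⟨⟨0, hd⟩⟩
    simp at hbig
  obtain ⟨o, M, hdet, hin, J, hJ, hJsub⟩ := normalise hd K hK hρ hball' hR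
  have hunit : IsUnit M.det := isUnit_iff_ne_zero.2 hdet
  set κ : ENNReal := ENNReal.ofReal |M.det⁻¹| with hκ
  have hvol : ∀ S : Set (Fin d → ℝ), volume {x | M *ᵥ (x - o) ∈ S} = κ * volume S := by
    intro S
    have h1 : {x | M *ᵥ (x - o) ∈ S} =
        (fun x => x + -o) ⁻¹' ((Matrix.toLin' M) ⁻¹' S) := by
      ext x
      simp [Matrix.toLin'_apply, sub_eq_add_neg]
    rw [h1, measure_preimage_add_right, Measure.addHaar_preimage_linearMap volume (by
      rw [LinearMap.det_toLin']; exact hdet), LinearMap.det_toLin']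
  have hκV : 1 ≤ κ * V0 := by
    refine (hfew J hJ).trans ?_
    calc volume {x | ∀ i ∈ J, x ∈ K i} ≤ volume {x | M *ᵥ (x - o) ∈ Metric.closedBall 0 Rb} := by
          apply measure_mono
          intro x hx
          show M *ᵥ (x - o) ∈ Metric.closedBall 0 Rb
          rw [mem_closedBall_iff_norm, sub_zero, pi_norm_le_iff_of_nonneg hRb0.le]
          intro j
          exact hJsub x hx j
      _ = κ * V0 := by
          rw [hvol, Real.volume_pi_closedBall _ hRb0.le, Fintype.card_fin]
  -- normalised family
  set K' : ι → Set (Fin d → ℝ) := fun i => {y | o + M⁻¹ *ᵥ y ∈ K i} with hK'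
  have hKK' : ∀ i, K i = {x | M *ᵥ (x - o) ∈ K' i} := by
    intro i
    ext x
    simp only [hK', mem_ofPred_eq]
    rw [mulVec_mulVec, nonsing_inv_mul _ hunit, one_mulVec, add_sub_cancel]
  have hK'conv : ∀ i, Convex ℝ (K' i) := by
    intro i y hy z hz s t hs ht hst
    have := hK i hy hz hs ht hst
    show o + M⁻¹ *ᵥ (s • y + t • z) ∈ K i
    convert this using 1
    rw [mulVec_add, mulVec_smul, mulVec_smul]
    have : t = 1 - s := by linarith
    rw [this]
    module
  have hK'ball : ∀ i, Metric.closedBall 0 s0 ⊆ K' i := by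
    intro i y hy
    apply hin i
    intro j
    rw [add_sub_cancel_left, mulVec_mulVec, mul_nonsing_inv _ hunit, one_mulVec]
    rw [mem_closedBall_iff_norm, sub_zero] at hy
    exact (norm_le_pi_norm y j).trans hy
  obtain ⟨c, hc⟩ := hcol ι K' hK'conv hK'ball
  refine ⟨c, fun j => ?_⟩
  by_cases hcl : ∃ i, c i = j
  · obtain ⟨i, hi⟩ := hcl
    set T := K' i ∩ Metric.closedBall 0 R' with hT
    have hsub : {x | M *ᵥ (x - o) ∈ (1 - ε) • T} ⊆ ⋂ k ∈ {k | c k = j}, K k := by
      intro x hx
      simp only [mem_iInter]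
      intro k hk
      obtain ⟨z, hz, hzx⟩ := hx
      rw [hKK' k]
      show M *ᵥ (x - o) ∈ K' k
      rw [← hzx]
      exact hc i k ((show c k = j from hk).trans hi.symm) z hz
    have hκT : 1 ≤ κ * volume T := by
      by_cases hsmall : K' i ⊆ Metric.closedBall 0 R'
      · have : T = K' i := inter_eq_left.2 hsmall
        rw [this, ← hvol, ← hKK']
        have h1 := hfew {i} (by simp; omega)
        simpa using h1
      · obtain ⟨x', hx', hx'n⟩ := not_subset.1 hsmall
        rw [mem_closedBall_iff_norm, sub_zero, not_le] at hx'n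
        have hx'pos : 0 < ‖x'‖ := hR'pos.trans hx'n
        set x : Fin d → ℝ := (R' / ‖x'‖) • x' with hx
        have hxnorm : ‖x - 0‖ = R' := by
          rw [sub_zero, hx, norm_smul, Real.norm_eq_abs, abs_of_pos (by positivity)]
          field_simp
        have h0 : (0 : Fin d → ℝ) ∈ K' i := hK'ball i (Metric.mem_closedBall_self hs0pos.le)
        have hxK : x ∈ K' i := by
          have h2 : R' / ‖x'‖ ≤ 1 := by
            rw [div_le_one hx'pos]; exact hx'n.le
          have := hK'conv i hx' h0 (a := R' / ‖x'‖) (b := 1 - R' / ‖x'‖) (by positivity)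
            (by linarith) (by ring)
          simpa using this
        have h3 := needle (hK'conv i) hs0pos (hK'ball i) hxK N (by rw [hxnorm])
        rw [hxnorm] at h3
        calc 1 ≤ κ * V0 := hκV
          _ ≤ κ * volume T := by
            gcongr
            exact hNV.trans h3
    calc ENNReal.ofReal (1 - δ) ≤ ENNReal.ofReal ((1 - ε) ^ d) :=
          ENNReal.ofReal_le_ofReal hpow
      _ = ENNReal.ofReal ((1 - ε) ^ d) * 1 := by rw [mul_one]
      _ ≤ ENNReal.ofReal ((1 - ε) ^ d) * (κ * volume T) := by gcongr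
      _ = κ * volume ((1 - ε) • T) := by
          rw [Measure.addHaar_smul, Module.finrank_fin_fun, abs_of_nonneg (by
            apply pow_nonneg; linarith)]
          ring
      _ = volume {x | M *ᵥ (x - o) ∈ (1 - ε) • T} := (hvol _).symm
      _ ≤ volume (⋂ k ∈ {k | c k = j}, K k) := measure_mono hsub
  · have : (⋂ i ∈ {i | c i = j}, K i) = univ := by
      rw [eq_univ_iff_forall]
      intro x
      simp only [mem_iInter]
      intro i hi
      exact absurd ⟨i, hi⟩ hcl
    rw [this]
    have h0 : Nonempty (Fin d) := ⟨⟨0, hd⟩⟩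
    simp

end Pool.Agent.Results.MP_05b917_co.BoundedPartition
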